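import Pool.Agent.H728R2.Q77.AFINAL2
import Pool.Agent.H728R2.Q77.CModel
import Pool.Agent.H728R2.Q77.ZKillT
import Pool.Agent.H728R2.Q77.AFAC
import Pool.Agent.H728R2.Q77.ABRO
import Pool.Agent.H728R2.Q77.ZRecX
import Pool.Agent.H728R2.Q77.BStep
import Pool.Agent.H728R2.Q77.ZAlg1

/-!
# A quasinilpotent operator in a II_1 factor without invariant projections in the factor

The proof of `FINAL2` (file `Pool.Agent.H728R2.Q77.AFINAL2`), run for a given tower, so that the
operator itself is available.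
-/

set_option autoImplicit false
set_option linter.unusedSectionVars false
set_option maxHeartbeats 2000000
open Filter Topology
open scoped ComplexOrder InnerProductSpace

namespace Pool.Agent.H925.RelInv
open Pool.H711R2 Pool.Agent.H98R2.RR

theorem exists_operator {H : Type} [NormedAddCommGroup H] [InnerProductSpace ℂ H]
    [CompleteSpace H]
    {M : VonNeumannAlgebra H} {τ : (H →L[ℂ] H) →ₗ[ℂ] ℂ} (T : Tower M τ) (hgap : 0 < T.gapc) :
    ∃ A ∈ M, (∀ m : ℕ, 1 ≤ m → τ (A ^ m) = 0) ∧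
      (∀ c : ℝ, 0 < c → ∃ N : ℕ, 1 ≤ N ∧ ‖A ^ N‖ ≤ c ^ N) ∧
      ∀ P ∈ M, IsStarProjection P → A * P = P * A * P → P = 0 ∨ P = 1 := by
  classical
  have hC : St_CONSx := RECX (Pool.Agent.H209R2.ISP.T.STEP ALG)
  obtain ⟨Cst, hC0, hK⟩ := KILL728
  have hK' := hK H M τ T hgap
  let Φ : ℕ → (H →L[ℂ] H) → (H →L[ℂ] H) → ℝ := fun k S Si =>
    if h : T.Adm k S Si then
      (hK' k S Si h (1 / ((k : ℝ) + 1)) (by positivity)).choose else 1
  have hΦ : ∀ k S Si, 0 < Φ k S Si := by
    intro k S Si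
    by_cases h : T.Adm k S Si
    · have h1 : Φ k S Si = (hK' k S Si h (1 / ((k : ℝ) + 1)) (by positivity)).choose := dif_pos h
      rw [h1]
      exact (hK' k S Si h (1 / ((k : ℝ) + 1)) (by positivity)).choose_spec.1
    · have h1 : Φ k S Si = 1 := dif_neg h
      rw [h1]; exact one_pos
  obtain ⟨A, hA, hmom, hqn, hAk⟩ := hC H M τ T Φ hΦ
  refine ⟨A, hA, hmom, hqn, ?_⟩
  intro P hP hp hPA
  set D : ℝ := Cst * (1 + T.gapc) with hD
  have hD0 : 0 < D := by positivity
  -- the estimate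
  have hest : ∀ η : ℝ, 0 < η → η ≤ 1 → tr τ P - (tr τ P) ^ 2 ≤ D * η := by
    intro η hη hη1
    apply le_of_forall_pos_le_add
    intro ε hε
    obtain ⟨k0, y, hy, hny⟩ := T.dense P hP (η ^ 8) (by positivity)
    obtain ⟨n0, hn0⟩ := exists_nat_one_div_lt hε
    set k := max k0 n0 with hk
    have hyk : y ∈ T.B k := by
      have : ∀ m, y ∈ T.B (k0 + m) := by
        intro m
        induction m with
        | zero => exact hy
        | succ m ih => exact T.B_mono _ _ ih
      have h2 := this (k - k0)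
      rwa [Nat.add_sub_cancel' (le_max_left _ _)] at h2
    obtain ⟨S, Si, hadm, hinv⟩ := hAk k
    have h1 := hinv P hP hp hPA
    have h2 : Φ k S Si = (hK' k S Si hadm (1 / ((k : ℝ) + 1)) (by positivity)).choose :=
      dif_pos hadm
    have h3 := (hK' k S Si hadm (1 / ((k : ℝ) + 1)) (by positivity)).choose_spec.2 P hP hp
      (fun z hz => by rw [← h2]; exact h1 z hz) y hyk η hη hη1 hny
    have h4 : 1 / ((k : ℝ) + 1) ≤ ε := by
      refine le_trans ?_ hn0.le
      apply one_div_le_one_div_of_le (by positivity)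
      have : (n0 : ℝ) ≤ k := by exact_mod_cast le_max_right _ _
      linarith
    linarith
  have h0 : tr τ P - (tr τ P) ^ 2 ≤ 0 := by
    by_contra hcon
    have hcon := not_le.1 hcon
    set g := tr τ P - (tr τ P) ^ 2 with hg
    have h1 := hest (min 1 (g / (2 * D))) (by positivity) (min_le_left _ _)
    have h3 : D * min 1 (g / (2 * D)) ≤ D * (g / (2 * D)) :=
      mul_le_mul_of_nonneg_left (min_le_right _ _) hD0.le
    have h4 : D * (g / (2 * D)) = g / 2 := by field_simp
    linarith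
  have hn0 : 0 ≤ tr τ P := T.tr.tr_proj_nonneg hP hp
  have hn1 : 0 ≤ tr τ (1 - P) := T.tr.tr_proj_nonneg (vn_sub (vn_one M) hP) hp.one_sub
  have h1P : tr τ (1 - P) = 1 - tr τ P := by rw [tr_sub, T.tr.tr_one]
  rcases eq_or_lt_of_le hn0 with h | h
  · exact Or.inl (FINAL2_proj_zero T P hP hp h.symm)
  · have h2 : tr τ (1 - P) = 0 := by
      rw [h1P] at hn1 ⊢
      nlinarith
    have h3 := FINAL2_proj_zero T (1 - P) (vn_sub (vn_one M) hP) hp.one_sub h2
    exact Or.inr (sub_eq_zero.1 h3).symm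

/-- the factor has a projection different from `0` and `1` -/
theorem exists_proj {H : Type} [NormedAddCommGroup H] [InnerProductSpace ℂ H]
    [CompleteSpace H]
    {M : VonNeumannAlgebra H} {τ : (H →L[ℂ] H) →ₗ[ℂ] ℂ} (T : Tower M τ) :
    ∃ P ∈ M, IsStarProjection P ∧ P ≠ 0 ∧ P ≠ 1 := by
  have hMU := T.eMU 1
  have h10 : (1 : H →L[ℂ] H) ≠ 0 := by
    intro h
    have h1 := T.tr.one
    rw [h, map_zero] at h1
    exact zero_ne_one h1
  have hne : T.e 1 0 0 ≠ 0 := by
    intro h0
    apply h10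
    rw [← hMU.sum]
    refine Finset.sum_eq_zero fun i hi => ?_
    have hi' : i < 64 ^ 1 := Finset.mem_range.mp hi
    have h1 := hMU.mul i hi' 0 (by norm_num) 0 (by norm_num) 0 (by norm_num)
    have h2 := hMU.mul i hi' 0 (by norm_num) 0 (by norm_num) i hi'
    rw [h0, mul_zero, if_pos rfl] at h1
    rw [← h1, zero_mul, if_pos rfl] at h2
    exact h2.symm
  refine ⟨T.e 1 0 0, T.B_sub 1 _ (T.e_mem 1 0 (by norm_num) 0 (by norm_num)), ⟨?_, ?_⟩, hne, ?_⟩
  · have h := hMU.mul 0 (by norm_num) 0 (by norm_num) 0 (by norm_num) 0 (by norm_num)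
    rw [if_pos rfl] at h
    exact h
  · exact hMU.star 0 (by norm_num) 0 (by norm_num)
  · intro h1
    have h2 := hMU.mul 1 (by norm_num) 1 (by norm_num) 0 (by norm_num) 0 (by norm_num)
    have h3 := hMU.mul 0 (by norm_num) 1 (by norm_num) 1 (by norm_num) 0 (by norm_num)
    rw [if_neg (by norm_num), h1, mul_one] at h2
    have h4 := hMU.mul 0 (by norm_num) 1 (by norm_num) 1 (by norm_num) 1 (by norm_num)
    rw [h2, mul_zero, if_pos rfl] at h4
    rw [← h4, zero_mul, if_pos rfl] at h3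
    exact hne h3.symm

end Pool.Agent.H925.RelInv
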